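import Pool.Agent.Helper34.ZU.EMT
import Mathlib.Probability.Kernel.Condexp
import Mathlib.MeasureTheory.SetAlgebra

/-!
Row EDI of the sheet ZU (MP_7a8f48_an): the ergodic decomposition.
-/

set_option linter.unusedSectionVars false

open MeasureTheory Filter Topology Finset ProbabilityTheory
open scoped ENNReal

namespace Pool.Agent.Helper34.ZU

open Pool.Agent.Helper40.ZU (ST_EDI)

/-- a countable algebra which generates the sigma algebra -/
theorem exists_alg (Z : Type) [MeasurableSpace Z] [MeasurableSpace.CountablyGenerated Z] :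
    ∃ C : Set (Set Z), C.Countable ∧ IsPiSystem C ∧
      ‹MeasurableSpace Z› = MeasurableSpace.generateFrom C ∧ ∀ s ∈ C, MeasurableSet s := by
  refine ⟨generateSetAlgebra (MeasurableSpace.countableGeneratingSet Z),
    countable_generateSetAlgebra MeasurableSpace.countable_countableGeneratingSet, ?_, ?_, ?_⟩
  · intro s hs t ht _
    exact isSetAlgebra_generateSetAlgebra.inter_mem hs ht
  · rw [generateFrom_generateSetAlgebra_eq, MeasurableSpace.generateFrom_countableGeneratingSet]
  · intro s hs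
    have h : MeasurableSet[MeasurableSpace.generateFrom
        (generateSetAlgebra (MeasurableSpace.countableGeneratingSet Z))] s :=
      MeasurableSpace.measurableSet_generateFrom hs
    rwa [generateFrom_generateSetAlgebra_eq,
      MeasurableSpace.generateFrom_countableGeneratingSet] at h

/-- a subsequence which tends to zero almost everywhere -/
theorem exists_sub {Z : Type} [MeasurableSpace Z] {κ : Measure Z} {u : ℕ → Z → ℝ≥0∞}
    (hu : ∀ N, Measurable (u N)) (h : Tendsto (fun N => ∫⁻ z, u N z ∂κ) atTop (𝓝 0)) :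
    ∃ N : ℕ → ℕ, (∀ j, j + 1 ≤ N j) ∧ ∀ᵐ z ∂κ, Tendsto (fun j => u (N j) z) atTop (𝓝 0) := by
  have h1 : ∀ j : ℕ, ∃ N : ℕ, j + 1 ≤ N ∧ ∫⁻ z, u N z ∂κ ≤ (2 : ℝ≥0∞)⁻¹ ^ j := by
    intro j
    have h2 : (0 : ℝ≥0∞) < (2 : ℝ≥0∞)⁻¹ ^ j := by
      exact ENNReal.pow_pos (ENNReal.inv_pos.2 ENNReal.ofNat_ne_top) j
    obtain ⟨N, hN1, hN2⟩ := ((h.eventually (ge_mem_nhds h2)).and
      (eventually_ge_atTop (j + 1))).exists
    exact ⟨N, hN2, hN1⟩
  choose N hN1 hN2 using h1
  refine ⟨N, hN1, ?_⟩
  have h2 : ∫⁻ z, ∑' j, u (N j) z ∂κ ≠ ∞ := by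
    rw [lintegral_tsum fun j => (hu _).aemeasurable]
    refine ne_top_of_le_ne_top ?_ (ENNReal.tsum_le_tsum hN2)
    rw [ENNReal.tsum_geometric]
    simp
  filter_upwards [ae_lt_top (Measurable.tsum fun j => hu _) h2] with z hz
  exact ENNReal.tendsto_atTop_zero_of_tsum_ne_top hz.ne

/-- an invariant measure which is independent of the invariant sets is ergodic -/
theorem erg_crit {Z : Type} [MeasurableSpace Z] {μ : Measure Z} [IsProbabilityMeasure μ]
    {τ : Z → Z} (hτ : MeasurePreserving τ μ μ) {C : Set (Set Z)} (hC : IsPiSystem C)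
    (hg : ‹MeasurableSpace Z› = MeasurableSpace.generateFrom C)
    (h : ∀ s ∈ C, ∀ D, MeasurableSet D → τ ⁻¹' D = D → μ (D ∩ s) = μ D * μ s) :
    Ergodic τ μ := by
  refine ⟨hτ, ⟨fun D hD hD2 => ?_⟩⟩
  have h1 : μ.restrict D = (μ D) • μ := by
    refine ext_of_generate_finite C hg hC (fun s hs => ?_) ?_
    · have hsm : MeasurableSet s := by
        rw [hg]
        exact MeasurableSpace.measurableSet_generateFrom hs
      rw [Measure.restrict_apply hsm, Measure.smul_apply, smul_eq_mul, Set.inter_comm]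
      exact h s hs D hD hD2
    · rw [Measure.restrict_apply MeasurableSet.univ, Set.univ_inter, Measure.smul_apply,
        smul_eq_mul, measure_univ, mul_one]
  have h2 : μ D = μ D * μ D := by
    have h3 : μ.restrict D D = ((μ D) • μ) D := by rw [h1]
    rwa [Measure.restrict_apply hD, Set.inter_self, Measure.smul_apply, smul_eq_mul] at h3
  rw [Filter.eventuallyConst_set']
  rcases eq_or_ne (μ D) 0 with h0 | h0
  · left
    exact ae_eq_empty.2 h0
  · right
    have h3 : μ D = 1 := by
      have h4 : μ D * 1 = μ D * μ D := by rw [mul_one]; exact h2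
      exact ((ENNReal.mul_right_inj h0 (measure_ne_top μ D)).1 h4).symm
    rw [ae_eq_univ, prob_compl_eq_zero_iff hD]
    exact h3

section kernel

variable {Z : Type} [MeasurableSpace Z] [StandardBorelSpace Z] {κ : Measure Z}
  [IsProbabilityMeasure κ] {τ : Z → Z}

/-- the conditional measures are invariant -/
theorem ker_inv (hτ : MeasurePreserving τ κ κ) {s : Set Z} (hs : MeasurableSet s) :
    ∀ᵐ ω ∂κ, condExpKernel κ (MeasurableSpace.invariants τ) ω (τ ⁻¹' s) =
      condExpKernel κ (MeasurableSpace.invariants τ) ω s := by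
  have hI : MeasurableSpace.invariants τ ≤ ‹MeasurableSpace Z› := MeasurableSpace.invariants_le τ
  have hs' : MeasurableSet (τ ⁻¹' s) := hτ.measurable hs
  have h1 := condExpKernel_ae_eq_condExp (μ := κ) hI hs
  have h2 := condExpKernel_ae_eq_condExp (μ := κ) hI hs'
  have i1 : Integrable (s.indicator fun _ => (1 : ℝ)) κ := (integrable_const 1).indicator hs
  have i2 : Integrable ((τ ⁻¹' s).indicator fun _ => (1 : ℝ)) κ :=
    (integrable_const 1).indicator hs'
  have h3 : κ⟦s | MeasurableSpace.invariants τ⟧ =ᵐ[κ]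
      κ⟦τ ⁻¹' s | MeasurableSpace.invariants τ⟧ := by
    refine ae_eq_condExp_of_forall_setIntegral_eq hI i2
      (fun t _ _ => integrable_condExp.integrableOn) (fun t ht _ => ?_)
      stronglyMeasurable_condExp.aestronglyMeasurable
    rw [setIntegral_condExp hI i1 ht]
    have h4 := set_inv hτ (F := s.indicator fun _ => (1 : ℝ)) (measurable_const.indicator hs) ht 1
    rw [← h4]
    rfl
  filter_upwards [h1, h2, h3] with ω e1 e2 e3
  rw [← e1, ← e2] at e3
  exact ((measureReal_eq_measureReal_iff).1 e3).symm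

/-- the conditional measures of invariant sets -/
theorem ker_set {t : Set Z} (ht : MeasurableSet[MeasurableSpace.invariants τ] t) :
    ∀ᵐ ω ∂κ, (condExpKernel κ (MeasurableSpace.invariants τ) ω).real t =
      t.indicator (fun _ => (1 : ℝ)) ω := by
  have hI : MeasurableSpace.invariants τ ≤ ‹MeasurableSpace Z› := MeasurableSpace.invariants_le τ
  have h1 := condExpKernel_ae_eq_condExp (μ := κ) hI (hI t ht)
  have h2 : κ⟦t | MeasurableSpace.invariants τ⟧ = t.indicator fun _ => (1 : ℝ) :=
    condExp_of_stronglyMeasurable hI (StronglyMeasurable.indicator stronglyMeasurable_const ht)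
      ((integrable_const 1).indicator (hI t ht))
  rw [h2] at h1
  exact h1

/-- invariant functions are constant for the conditional measures -/
theorem ker_const {φ : Z → ℝ} (hφ : Measurable[MeasurableSpace.invariants τ] φ) :
    ∀ᵐ ω ∂κ, ∀ᵐ z ∂(condExpKernel κ (MeasurableSpace.invariants τ) ω), φ z = φ ω := by
  have hI : MeasurableSpace.invariants τ ≤ ‹MeasurableSpace Z› := MeasurableSpace.invariants_le τ
  have h1 : ∀ q : ℚ, MeasurableSet[MeasurableSpace.invariants τ] {z | φ z ≤ (q : ℝ)} :=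
    fun q => hφ measurableSet_Iic
  filter_upwards [ae_all_iff.2 fun q : ℚ => ker_set (κ := κ) (h1 q)] with ω hω
  have h2 : ∀ q : ℚ, ∀ᵐ z ∂(condExpKernel κ (MeasurableSpace.invariants τ) ω),
      (φ z ≤ (q : ℝ) ↔ φ ω ≤ (q : ℝ)) := by
    intro q
    have h3 := hω q
    by_cases hq : φ ω ≤ (q : ℝ)
    · rw [Set.indicator_of_mem (show ω ∈ {z | φ z ≤ (q : ℝ)} from hq)] at h3
      have h4 : condExpKernel κ (MeasurableSpace.invariants τ) ω {z | φ z ≤ (q : ℝ)} = 1 := by
        rw [measureReal_def] at h3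
        have h5 := ENNReal.ofReal_toReal
          (measure_ne_top (condExpKernel κ (MeasurableSpace.invariants τ) ω) {z | φ z ≤ (q : ℝ)})
        rw [h3, ENNReal.ofReal_one] at h5
        exact h5.symm
      have h6 : ∀ᵐ z ∂(condExpKernel κ (MeasurableSpace.invariants τ) ω),
          z ∈ {z | φ z ≤ (q : ℝ)} :=
        (prob_compl_eq_zero_iff (hI _ (h1 q))).2 h4
      filter_upwards [h6] with z hz
      exact ⟨fun _ => hq, fun _ => hz⟩
    · rw [Set.indicator_of_notMem (show ω ∉ {z | φ z ≤ (q : ℝ)} from hq)] at h3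
      rw [measureReal_eq_zero_iff] at h3
      have h6 : ∀ᵐ z ∂(condExpKernel κ (MeasurableSpace.invariants τ) ω),
          z ∉ {z | φ z ≤ (q : ℝ)} := measure_eq_zero_iff_ae_notMem.1 h3
      filter_upwards [h6] with z hz
      exact ⟨fun h => absurd h hz, fun h => absurd h hq⟩
  filter_upwards [ae_all_iff.2 h2] with z hz
  by_contra hne
  rcases lt_or_gt_of_ne hne with h5 | h5
  · obtain ⟨q, hq1, hq2⟩ := exists_rat_btwn h5
    exact absurd ((hz q).1 hq1.le) (not_le.2 hq2)
  · obtain ⟨q, hq1, hq2⟩ := exists_rat_btwn h5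
    exact absurd ((hz q).2 hq1.le) (not_le.2 hq2)

end kernel

/-- the measure of the intersection with an invariant set -/
theorem indep_bound {Z : Type} [MeasurableSpace Z] {μ : Measure Z} [IsProbabilityMeasure μ]
    {τ : Z → Z} (hτ : MeasurePreserving τ μ μ) {s D : Set Z} (hs : MeasurableSet s)
    (hD : MeasurableSet D) (hD2 : τ ⁻¹' D = D) (c : ℝ) {N : ℕ} (hN : 1 ≤ N) :
    ENNReal.ofReal |μ.real (D ∩ s) - μ.real D * c| ≤
      ∫⁻ z, ENNReal.ofReal |(∑ n ∈ range N, s.indicator (fun _ => (1 : ℝ)) (τ^[n] z)) / (N : ℝ) -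
        c| ∂μ := by
  obtain ⟨F, hF⟩ : ∃ F : Z → ℝ, F = s.indicator fun _ => (1 : ℝ) := ⟨_, rfl⟩
  rw [← hF]
  have hFm : Measurable F := by rw [hF]; exact measurable_const.indicator hs
  have hFb : ∀ z, ‖F z‖ ≤ 1 := fun z => by
    rw [hF]
    refine (norm_indicator_le_norm_self (fun _ => (1 : ℝ)) z).trans ?_
    simp
  have iFn : ∀ n : ℕ, Integrable (fun z => F (τ^[n] z)) μ := fun n =>
    Integrable.of_bound (hFm.comp (hτ.measurable.iterate n)).aestronglyMeasurable 1
      (Eventually.of_forall fun z => hFb _)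
  have iA : Integrable (fun z => (∑ n ∈ range N, F (τ^[n] z)) / (N : ℝ)) μ :=
    (integrable_finsetSum _ fun n _ => iFn n).div_const _
  have hDI : MeasurableSet[MeasurableSpace.invariants τ] D :=
    MeasurableSpace.measurableSet_invariants.2 ⟨hD, hD2⟩
  have h1 : ∫ z in D, (∑ n ∈ range N, F (τ^[n] z)) / (N : ℝ) ∂μ = μ.real (D ∩ s) := by
    have hN0 : (N : ℝ) ≠ 0 := by exact_mod_cast (by omega : N ≠ 0)
    rw [integral_div, integral_finsetSum _ fun n _ => (iFn n).integrableOn]
    simp only [set_inv hτ hFm hDI]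
    rw [Finset.sum_const, card_range, nsmul_eq_mul, hF, setIntegral_indicator hs]
    simp only [integral_const, smul_eq_mul, mul_one, measureReal_restrict_apply_univ]
    field_simp
  have h2 : ∫ z in D, c ∂μ = μ.real D * c := by
    simp only [integral_const, smul_eq_mul, measureReal_restrict_apply_univ]
  have iAc : Integrable (fun z => (∑ n ∈ range N, F (τ^[n] z)) / (N : ℝ) - c) μ :=
    iA.sub (integrable_const c)
  have h3 : |μ.real (D ∩ s) - μ.real D * c| ≤
      ∫ z, |(∑ n ∈ range N, F (τ^[n] z)) / (N : ℝ) - c| ∂μ := by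
    rw [← h1, ← h2, ← integral_sub iA.integrableOn (integrable_const c)]
    have h3 := norm_integral_le_integral_norm (μ := μ.restrict D)
      (fun z => (∑ n ∈ range N, F (τ^[n] z)) / (N : ℝ) - c)
    rw [Real.norm_eq_abs] at h3
    refine h3.trans ?_
    exact setIntegral_le_integral iAc.norm (Eventually.of_forall fun z => norm_nonneg _)
  rw [← ofReal_integral_eq_lintegral_ofReal iAc.abs (Eventually.of_forall fun z => abs_nonneg _)]
  exact ENNReal.ofReal_le_ofReal h3

/-- **EDI**. -/
theorem st_EDI : ST_EDI := by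
  intro Z _ _ κ _ τ hτ
  have hI : MeasurableSpace.invariants τ ≤ ‹MeasurableSpace Z› := MeasurableSpace.invariants_le τ
  obtain ⟨K, hK⟩ : ∃ K : Kernel Z Z, K =
      (condExpKernel κ (MeasurableSpace.invariants τ)).comap id (measurable_id'' hI) := ⟨_, rfl⟩
  have hKa : ∀ ω, K ω = condExpKernel κ (MeasurableSpace.invariants τ) ω := fun ω => by
    rw [hK, Kernel.comap_apply]
    rfl
  have hKm : IsMarkovKernel K := by rw [hK]; infer_instance
  have hKb : κ.bind K = κ := by
    have h1 := condExpKernel_comp_trim (μ := κ) hI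
    refine Measure.ext fun s hs => ?_
    have h2 : κ s = (Measure.bind (κ.trim hI)
        (condExpKernel κ (MeasurableSpace.invariants τ))) s := by rw [h1]
    rw [h2, Measure.bind_apply hs K.measurable.aemeasurable,
      Measure.bind_apply hs (Kernel.measurable _).aemeasurable,
      lintegral_trim hI (measurable_condExpKernel hs)]
    simp only [hKa]
  refine ⟨K, hKm, hKb, ?_⟩
  obtain ⟨C, hCc, hCp, hCg, hCm⟩ := exists_alg Z
  have h1 : ∀ᵐ ω ∂κ, ∀ s ∈ C, K ω (τ ⁻¹' s) = K ω s := by
    rw [ae_ball_iff hCc]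
    intro s hs
    filter_upwards [ker_inv hτ (hCm s hs)] with ω hω
    rw [hKa]
    exact hω
  have h2 : ∀ᵐ ω ∂κ, ∀ s ∈ C, ∃ N : ℕ → ℕ, (∀ j, j + 1 ≤ N j) ∧
      Tendsto (fun j => ∫⁻ z, ENNReal.ofReal
        |(∑ n ∈ range (N j), s.indicator (fun _ => (1 : ℝ)) (τ^[n] z)) / (N j : ℝ) -
          (K ω).real s| ∂(K ω)) atTop (𝓝 0) := by
    rw [ae_ball_iff hCc]
    intro s hs
    have hsm := hCm s hs
    obtain ⟨F, hF⟩ : ∃ F : Z → ℝ, F = s.indicator fun _ => (1 : ℝ) := ⟨_, rfl⟩
    have hFm : Measurable F := by rw [hF]; exact measurable_const.indicator hsm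
    have hFb : ∀ z, |F z| ≤ 1 := fun z => by
      rw [hF, ← Real.norm_eq_abs]
      refine (norm_indicator_le_norm_self (fun _ => (1 : ℝ)) z).trans ?_
      simp
    obtain ⟨φ, hφ⟩ : ∃ φ : Z → ℝ,
        φ = fun ω => (condExpKernel κ (MeasurableSpace.invariants τ) ω).real s := ⟨_, rfl⟩
    have hφm : Measurable[MeasurableSpace.invariants τ] φ := by
      rw [hφ]
      exact (measurable_condExpKernel hsm).ennreal_toReal
    have hφm' : Measurable φ := hφm.mono hI le_rfl
    have hφe := condExpKernel_ae_eq_condExp (μ := κ) hI hsm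
    have hemt := st_EMT Z κ τ hτ F hFm ⟨1, hFb⟩
    have hlim : Tendsto (fun N : ℕ => ∫ z, |(∑ n ∈ range N, F (τ^[n] z)) / (N : ℝ) - φ z| ∂κ)
        atTop (𝓝 0) := by
      refine hemt.congr fun N => ?_
      refine integral_congr_ae ?_
      filter_upwards [hφe] with z hz
      rw [hφ, hF]
      simp only
      rw [hz]
    have hAm : ∀ N : ℕ, Measurable fun z => (∑ n ∈ range N, F (τ^[n] z)) / (N : ℝ) := fun N =>
      (Finset.measurable_fun_sum _ fun n _ => hFm.comp (hτ.measurable.iterate n)).div_const _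
    have hgm : ∀ N : ℕ, Measurable fun z =>
        ENNReal.ofReal |(∑ n ∈ range N, F (τ^[n] z)) / (N : ℝ) - φ z| := fun N =>
      ((hAm N).sub hφm').abs.ennreal_ofReal
    obtain ⟨u, hu⟩ : ∃ u : ℕ → Z → ℝ≥0∞, u = fun N ω => ∫⁻ z, ENNReal.ofReal
        |(∑ n ∈ range N, F (τ^[n] z)) / (N : ℝ) - φ z| ∂(K ω) := ⟨_, rfl⟩
    have hum : ∀ N, Measurable (u N) := fun N => by
      rw [hu]
      exact (hgm N).lintegral_kernel
    have hφb : ∀ z, |φ z| ≤ 1 := fun z => by
      rw [hφ, abs_of_nonneg measureReal_nonneg]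
      exact measureReal_le_one
    have iφ : Integrable φ κ := Integrable.of_bound hφm'.aestronglyMeasurable 1
      (Eventually.of_forall hφb)
    have iA : ∀ N : ℕ, Integrable (fun z => (∑ n ∈ range N, F (τ^[n] z)) / (N : ℝ)) κ := fun N =>
      (integrable_finsetSum _ fun n _ => Integrable.of_bound
        (hFm.comp (hτ.measurable.iterate n)).aestronglyMeasurable 1
        (Eventually.of_forall fun z => hFb _)).div_const _
    have hulim : Tendsto (fun N => ∫⁻ ω, u N ω ∂κ) atTop (𝓝 0) := by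
      have e1 : ∀ N, ∫⁻ ω, u N ω ∂κ = ENNReal.ofReal
          (∫ z, |(∑ n ∈ range N, F (τ^[n] z)) / (N : ℝ) - φ z| ∂κ) := by
        intro N
        have e0 : Integrable (fun z => |(∑ n ∈ range N, F (τ^[n] z)) / (N : ℝ) - φ z|) κ :=
          ((iA N).sub iφ).abs
        rw [ofReal_integral_eq_lintegral_ofReal e0
          (Eventually.of_forall fun z => abs_nonneg _), hu]
        have e2 := Measure.lintegral_bind (m := κ) (μ := K) K.measurable.aemeasurable
          (hgm N).aemeasurable
        rw [hKb] at e2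
        exact e2.symm
      simp only [e1]
      have e3 := (ENNReal.continuous_ofReal.tendsto 0).comp hlim
      rw [ENNReal.ofReal_zero] at e3
      exact e3
    obtain ⟨N, hN1, hN2⟩ := exists_sub hum hulim
    filter_upwards [hN2, ker_const (κ := κ) hφm] with ω hω1 hω2
    refine ⟨N, hN1, hω1.congr fun j => ?_⟩
    rw [hu]
    refine lintegral_congr_ae ?_
    have hω3 : ∀ᵐ z ∂(K ω), φ z = φ ω := by rw [hKa]; exact hω2
    filter_upwards [hω3] with z hz
    rw [hz, hφ, hF, hKa]
  filter_upwards [h1, h2] with ω hω1 hω2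
  have hP : IsProbabilityMeasure (K ω) := hKm.isProbabilityMeasure ω
  have hmp : MeasurePreserving τ (K ω) (K ω) := by
    refine ⟨hτ.measurable, ?_⟩
    have : IsProbabilityMeasure ((K ω).map τ) :=
      Measure.isProbabilityMeasure_map hτ.measurable.aemeasurable
    refine ext_of_generate_finite C hCg hCp (fun s hs => ?_) (by simp)
    rw [Measure.map_apply hτ.measurable (hCm s hs)]
    exact hω1 s hs
  refine erg_crit hmp hCp hCg fun s hs D hD hD2 => ?_
  obtain ⟨N, hN1, hN2⟩ := hω2 s hs
  have h3 : ENNReal.ofReal |(K ω).real (D ∩ s) - (K ω).real D * (K ω).real s| ≤ 0 := by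
    refine ge_of_tendsto hN2 (Eventually.of_forall fun j => ?_)
    exact indep_bound hmp (hCm s hs) hD hD2 _ (by have := hN1 j; omega)
  have h4 : |(K ω).real (D ∩ s) - (K ω).real D * (K ω).real s| ≤ 0 :=
    ENNReal.ofReal_eq_zero.1 (le_antisymm h3 bot_le)
  have h5 := abs_nonpos_iff.1 h4
  have h6 : ((K ω) (D ∩ s)).toReal = ((K ω) D * (K ω) s).toReal := by
    rw [ENNReal.toReal_mul]
    simp only [measureReal_def] at h5
    linarith
  exact (ENNReal.toReal_eq_toReal_iff' (measure_ne_top _ _)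
    (ENNReal.mul_ne_top (measure_ne_top _ _) (measure_ne_top _ _))).1 h6

end Pool.Agent.Helper34.ZU
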