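import Pool.Agent.Helper40.ZU.Stmts
import Mathlib.Analysis.InnerProductSpace.MeanErgodic

/-!
Row EMT of the sheet ZU (MP_7a8f48_an): the mean ergodic theorem with the sigma algebra of the
invariant sets.
-/

set_option linter.unusedSectionVars false

open MeasureTheory Filter Topology Finset
open scoped ENNReal

namespace Pool.Agent.Helper34.ZU

open Pool.Agent.Helper40.ZU (ST_EMT)

variable {Z : Type} [MeasurableSpace Z] {κ : Measure Z} [IsProbabilityMeasure κ] {τ : Z → Z}

/-- a function which is invariant almost everywhere is equal to an invariant function -/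
theorem inv_mod {g : Z → ℝ} (hτ : MeasurePreserving τ κ κ) (hg : Measurable g)
    (h : ∀ᵐ z ∂κ, g (τ z) = g z) :
    ∃ g' : Z → ℝ, Measurable[MeasurableSpace.invariants τ] g' ∧ g' =ᵐ[κ] g := by
  refine ⟨fun z => limsup (fun n => g (τ^[n] z)) atTop, ?_, ?_⟩
  · rw [MeasurableSpace.measurable_invariants_dom]
    refine ⟨Measurable.limsup fun n => hg.comp (hτ.measurable.iterate n), fun s hs => ?_⟩
    have h1 : (fun z => limsup (fun n => g (τ^[n] z)) atTop) ∘ τ =
        fun z => limsup (fun n => g (τ^[n] z)) atTop := by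
      funext z
      have h2 := limsup_nat_add (fun n => g (τ^[n] z)) 1
      simpa only [Function.comp_apply, Function.iterate_succ_apply] using h2
    rw [h1]
  · have h1 : ∀ n : ℕ, ∀ᵐ z ∂κ, g (τ^[n] z) = g z := by
      intro n
      induction n with
      | zero => exact Eventually.of_forall fun z => rfl
      | succ n ih =>
        have h2 := (hτ.iterate n).quasiMeasurePreserving.ae h
        filter_upwards [ih, h2] with z hz1 hz2
        rw [Function.iterate_succ_apply', ← hz1]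
        exact hz2
    filter_upwards [ae_all_iff.2 h1] with z hz
    simp only [hz, limsup_const]

/-- the norms of `L¹` and `L²` -/
theorem l1_le_norm (h : Lp ℝ 2 κ) : ∫ z, |h z| ∂κ ≤ ‖h‖ := by
  have h1 : ∫ z, |h z| ∂κ = (eLpNorm h 1 κ).toReal := by
    rw [eLpNorm_one_eq_lintegral_enorm, ← integral_norm_eq_lintegral_enorm
      (Lp.aestronglyMeasurable h)]
    rfl
  rw [h1, Lp.norm_def]
  exact ENNReal.toReal_mono (Lp.eLpNorm_ne_top h)
    (eLpNorm_le_eLpNorm_of_exponent_le (by norm_num) (Lp.aestronglyMeasurable h))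

theorem emt_aux (hτ : MeasurePreserving τ κ κ) {F : Z → ℝ} (hF : Measurable F) {B : ℝ}
    (hB : ∀ z, |F z| ≤ B) :
    ∃ g : Z → ℝ, Measurable[MeasurableSpace.invariants τ] g ∧ MemLp g 2 κ ∧
      Tendsto (fun N : ℕ => ∫ z, |(∑ n ∈ range N, F (τ^[n] z)) / (N : ℝ) - g z| ∂κ) atTop
        (𝓝 0) := by
  have mF : MemLp F 2 κ := MemLp.of_bound hF.aestronglyMeasurable B
    (Eventually.of_forall fun z => by rw [Real.norm_eq_abs]; exact hB z)
  obtain ⟨f, hf⟩ : ∃ f : Lp ℝ 2 κ, f = mF.toLp F := ⟨_, rfl⟩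
  obtain ⟨U, hU⟩ : ∃ U : Lp ℝ 2 κ →ₗᵢ[ℝ] Lp ℝ 2 κ, U = Lp.compMeasurePreservingₗᵢ ℝ τ hτ :=
    ⟨_, rfl⟩
  have hUe : ∀ h : Lp ℝ 2 κ, (U h : Z → ℝ) =ᵐ[κ] h ∘ τ := fun h => by
    rw [hU]
    exact Lp.coeFn_compMeasurePreserving h hτ
  obtain ⟨V, hV⟩ : ∃ V : Lp ℝ 2 κ →L[ℝ] Lp ℝ 2 κ, V = U.toContinuousLinearMap := ⟨_, rfl⟩
  have hVU : ∀ h, V h = U h := fun h => by rw [hV]; rfl
  have hVn : ‖V‖ ≤ 1 := by rw [hV]; exact U.norm_toContinuousLinearMap_le
  have hlim := V.tendsto_birkhoffAverage_orthogonalProjection hVn f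
  obtain ⟨g, hg⟩ : ∃ g : Lp ℝ 2 κ,
      g = ((V.eqLocus (1 : Lp ℝ 2 κ →L[ℝ] Lp ℝ 2 κ)).orthogonalProjectionOnto f : Lp ℝ 2 κ) :=
    ⟨_, rfl⟩
  have hgV : V g = g := by
    have h1 := ((V.eqLocus (1 : Lp ℝ 2 κ →L[ℝ] Lp ℝ 2 κ)).orthogonalProjectionOnto f).2
    rw [← hg] at h1
    exact h1
  rw [← hg] at hlim
  have hge : ∀ᵐ z ∂κ, g (τ z) = g z := by
    have h1 := hUe g
    rw [← hVU, hgV] at h1
    filter_upwards [h1] with z hz
    exact hz.symm
  obtain ⟨g', hg'm, hg'e⟩ := inv_mod hτ (Lp.stronglyMeasurable g).measurable hge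
  refine ⟨g', hg'm, (memLp_congr_ae hg'e).2 (Lp.memLp g), ?_⟩
  -- the iterates
  have hit : ∀ n : ℕ, ((V^[n] f : Lp ℝ 2 κ) : Z → ℝ) =ᵐ[κ] fun z => F (τ^[n] z) := by
    intro n
    induction n with
    | zero =>
      have h1 := mF.coeFn_toLp
      rw [← hf] at h1
      exact h1
    | succ n ih =>
      rw [Function.iterate_succ_apply', hVU]
      have h1 := hUe (V^[n] f)
      have h2 := hτ.quasiMeasurePreserving.ae ih
      filter_upwards [h1, h2] with z hz1 hz2
      rw [hz1, Function.comp_apply, hz2, Function.iterate_succ_apply]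
  have hsum : ∀ N : ℕ, ((∑ n ∈ range N, V^[n] f : Lp ℝ 2 κ) : Z → ℝ) =ᵐ[κ]
      fun z => ∑ n ∈ range N, F (τ^[n] z) := by
    intro N
    induction N with
    | zero =>
      simp only [Finset.range_zero, Finset.sum_empty]
      exact Lp.coeFn_zero ℝ 2 κ
    | succ N ih =>
      rw [Finset.sum_range_succ]
      filter_upwards [Lp.coeFn_add (∑ n ∈ range N, V^[n] f) (V^[N] f), ih, hit N] with z h1 h2 h3
      rw [h1, Pi.add_apply, h2, h3, Finset.sum_range_succ]
  have hav : ∀ N : ℕ, ((birkhoffAverage ℝ V _root_.id N f : Lp ℝ 2 κ) : Z → ℝ) =ᵐ[κ]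
      fun z => (∑ n ∈ range N, F (τ^[n] z)) / (N : ℝ) := by
    intro N
    have e : birkhoffAverage ℝ V _root_.id N f = (N : ℝ)⁻¹ • ∑ n ∈ range N, V^[n] f := rfl
    rw [e]
    filter_upwards [Lp.coeFn_smul (N : ℝ)⁻¹ (∑ n ∈ range N, V^[n] f), hsum N] with z h1 h2
    rw [h1, Pi.smul_apply, h2, smul_eq_mul, div_eq_inv_mul]
  have h3 : Tendsto (fun N : ℕ => ‖birkhoffAverage ℝ V _root_.id N f - g‖) atTop (𝓝 0) := by
    have h4 := (hlim.sub_const g).norm
    rw [sub_self, norm_zero] at h4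
    exact h4
  refine squeeze_zero (fun N => integral_nonneg fun z => abs_nonneg _) (fun N => ?_) h3
  refine le_trans (le_of_eq ?_) (l1_le_norm _)
  refine integral_congr_ae ?_
  filter_upwards [hav N, hg'e, Lp.coeFn_sub (birkhoffAverage ℝ V _root_.id N f) g] with z h4 h5 h6
  rw [h6, Pi.sub_apply, h4, h5]

/-- integrals over invariant sets -/
theorem set_inv (hτ : MeasurePreserving τ κ κ) {F : Z → ℝ} (hF : Measurable F) {s : Set Z}
    (hs : MeasurableSet[MeasurableSpace.invariants τ] s) (n : ℕ) :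
    ∫ z in s, F (τ^[n] z) ∂κ = ∫ z in s, F z ∂κ := by
  have hs1 : MeasurableSet s := (MeasurableSpace.measurableSet_invariants.1 hs).1
  have hs2 : τ^[n] ⁻¹' s = s :=
    (MeasurableSpace.measurableSet_invariants.1 (MeasurableSpace.le_invariants_iterate τ n s hs)).2
  have h1 : κ.map τ^[n] = κ := (hτ.iterate n).map_eq
  have h2 : ∫ z in s, F z ∂κ = ∫ z in s, F z ∂(κ.map τ^[n]) := by rw [h1]
  rw [h2, Measure.restrict_map (hτ.iterate n).measurable hs1, hs2,
    integral_map (hτ.iterate n).measurable.aemeasurable hF.aestronglyMeasurable]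

/-- **EMT**. -/
theorem st_EMT : ST_EMT := by
  intro Z _ κ _ τ hτ F hF ⟨B, hB⟩
  obtain ⟨g, hgm, hg2, hlim⟩ := emt_aux hτ hF hB
  have hI : MeasurableSpace.invariants τ ≤ ‹MeasurableSpace Z› := MeasurableSpace.invariants_le τ
  have hτi : ∀ n : ℕ, Measurable τ^[n] := fun n => hτ.measurable.iterate n
  have iF : Integrable F κ := Integrable.of_bound hF.aestronglyMeasurable B
    (Eventually.of_forall fun z => by rw [Real.norm_eq_abs]; exact hB z)
  have iFn : ∀ n : ℕ, Integrable (fun z => F (τ^[n] z)) κ := fun n =>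
    Integrable.of_bound (hF.comp (hτi n)).aestronglyMeasurable B
      (Eventually.of_forall fun z => by rw [Real.norm_eq_abs]; exact hB _)
  have ig : Integrable g κ := hg2.integrable (by norm_num)
  have iA : ∀ N : ℕ, Integrable (fun z => (∑ n ∈ range N, F (τ^[n] z)) / (N : ℝ)) κ := fun N =>
    (integrable_finsetSum _ fun n _ => iFn n).div_const _
  have key : g =ᵐ[κ] κ[F|MeasurableSpace.invariants τ] := by
    refine ae_eq_condExp_of_forall_setIntegral_eq hI iF (fun s _ _ => ig.integrableOn) ?_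
      (hgm.stronglyMeasurable.aestronglyMeasurable)
    intro s hs _
    have h1 : ∀ N : ℕ, 1 ≤ N →
        ∫ z in s, (∑ n ∈ range N, F (τ^[n] z)) / (N : ℝ) ∂κ = ∫ z in s, F z ∂κ := by
      intro N hN
      have hN0 : (N : ℝ) ≠ 0 := by exact_mod_cast (by omega : N ≠ 0)
      rw [integral_div, integral_finsetSum _ fun n _ => (iFn n).integrableOn]
      simp only [set_inv hτ hF hs]
      rw [Finset.sum_const, card_range, nsmul_eq_mul]
      field_simp
    have h2 : ∀ N : ℕ, 1 ≤ N → |∫ z in s, F z ∂κ - ∫ z in s, g z ∂κ| ≤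
        ∫ z, |(∑ n ∈ range N, F (τ^[n] z)) / (N : ℝ) - g z| ∂κ := by
      intro N hN
      rw [← h1 N hN, ← integral_sub (iA N).integrableOn ig.integrableOn]
      have h3 := norm_integral_le_integral_norm (μ := κ.restrict s)
        (fun z => (∑ n ∈ range N, F (τ^[n] z)) / (N : ℝ) - g z)
      rw [Real.norm_eq_abs] at h3
      refine h3.trans ?_
      exact setIntegral_le_integral ((iA N).sub ig).norm
        (Eventually.of_forall fun z => norm_nonneg _)
    have h3 : |∫ z in s, F z ∂κ - ∫ z in s, g z ∂κ| ≤ 0 := by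
      refine ge_of_tendsto hlim ?_
      filter_upwards [eventually_ge_atTop 1] with N hN
      exact h2 N hN
    have h4 := abs_nonpos_iff.1 h3
    linarith
  refine hlim.congr fun N => ?_
  refine integral_congr_ae ?_
  filter_upwards [key] with z hz
  rw [hz]

end Pool.Agent.Helper34.ZU
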