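import Pool.Agent.Helper40.ZU.Stmts
import Pool.Agent.Helper95.GY.RIS

/-!
Row VAV of the sheet ZU (MP_7a8f48_an): averages of functions which are continuous almost
everywhere.
-/

open MeasureTheory Filter Topology Finset
open scoped ComplexConjugate BoundedContinuousFunction

namespace Pool.Agent.Helper34.ZU

open Pool.Agent.Helper40.ZU (Lt ST_VAV)

/-- the sums over `Icc 1 N` and `range N` -/
theorem sum_icc_range (f : ℕ → ℝ) (N : ℕ) :
    ∑ n ∈ range N, f n = f 0 - f N + ∑ n ∈ Icc 1 N, f n := by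
  have h6 : ∑ i ∈ range (N + 1), f i = f 0 + ∑ i ∈ Finset.Icc 1 N, f i := by
    rw [Finset.sum_range_succ', add_comm]
    congr 1
    rw [Finset.range_eq_Ico, Finset.sum_Ico_add' f 0 N 1]
    rfl
  rw [Finset.sum_range_succ] at h6
  linarith

/-- the shifted sum -/
theorem sum_icc_shift (f : ℕ → ℝ) (N : ℕ) :
    ∑ n ∈ Icc 1 N, f (n + 1) = f (N + 1) - f 1 + ∑ n ∈ Icc 1 N, f n := by
  induction N with
  | zero => simp
  | succ N ih =>
    rw [Finset.sum_Icc_succ_top (by omega), Finset.sum_Icc_succ_top (by omega), ih]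
    ring

/-- a bounded term divided by `N` tends to zero -/
theorem tend_div {L : Filter ℕ} (hL : L ≤ atTop) {g : ℕ → ℝ} {B : ℝ} (hg : ∀ n, |g n| ≤ B) :
    Tendsto (fun N : ℕ => g N / (N : ℝ)) L (𝓝 0) := by
  have h1 : Tendsto (fun N : ℕ => B / (N : ℝ)) L (𝓝 0) :=
    (tendsto_const_div_atTop_nhds_zero_nat B).mono_left hL
  refine squeeze_zero_norm (fun N => ?_) h1
  rw [norm_div, Real.norm_eq_abs, Real.norm_natCast]
  exact div_le_div_of_nonneg_right (hg N) (Nat.cast_nonneg N)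

theorem avg_tendsto {X : Type} [MetricSpace X] [CompactSpace X] [MeasurableSpace X]
    [BorelSpace X] {L : Filter ℕ} {T : X → X} {x : X} {m : Measure X} (h : Lt L T x m)
    {F : X → ℝ} (hF : Measurable F) {B : ℝ} (hB : ∀ z, |F z| ≤ B)
    (hc : ∀ᵐ z ∂m, ContinuousAt F z) :
    Tendsto (fun N : ℕ => (∑ n ∈ Icc 1 N, F (T^[n] x)) / (N : ℝ)) L (𝓝 (∫ z, F z ∂m)) := by
  have := h.prob
  rw [Metric.tendsto_nhds]
  intro ε hε
  obtain ⟨G, R, hG, hR, hFG, -, hGB, hRi⟩ := Pool.Agent.Helper98.GY.st_RIS X m ℝ F B hc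
    (fun z => by rw [Real.norm_eq_abs]; exact hB z) (ε / 4) (by positivity)
  have h1 := h.lim ⟨G, hG⟩
  have h2 := h.lim ⟨R, hR⟩
  rw [Metric.tendsto_nhds] at h1 h2
  have iF : Integrable F m := Integrable.of_bound hF.aestronglyMeasurable B
    (Eventually.of_forall fun z => by rw [Real.norm_eq_abs]; exact hB z)
  have iG : Integrable G m := Integrable.of_bound hG.aestronglyMeasurable B
    (Eventually.of_forall hGB)
  obtain ⟨C, hC⟩ := isCompact_univ.exists_bound_of_continuousOn hR.continuousOn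
  have iR : Integrable R m := Integrable.of_bound hR.aestronglyMeasurable C
    (Eventually.of_forall fun z => hC z (Set.mem_univ z))
  have h3 : |∫ z, F z ∂m - ∫ z, G z ∂m| ≤ ε / 4 := by
    rw [← integral_sub iF iG]
    have h3' : ∫ z, ‖F z - G z‖ ∂m ≤ ∫ z, R z ∂m :=
      integral_mono (iF.sub iG).norm iR fun z => hFG z
    have h3'' : ‖∫ z, (F z - G z) ∂m‖ ≤ ∫ z, ‖F z - G z‖ ∂m := norm_integral_le_integral_norm _
    rw [Real.norm_eq_abs] at h3''
    linarith
  filter_upwards [h1 (ε / 4) (by positivity), h2 (ε / 4) (by positivity),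
    h.le (eventually_gt_atTop 0)] with N hN1 hN2 hN0
  have hN0' : (0 : ℝ) < N := by exact_mod_cast hN0
  simp only [ContinuousMap.coe_mk] at hN1 hN2
  rw [Real.dist_eq] at hN1 hN2 ⊢
  have h4 : |(∑ n ∈ Icc 1 N, F (T^[n] x)) / (N : ℝ) - (∑ n ∈ Icc 1 N, G (T^[n] x)) / (N : ℝ)| ≤
      (∑ n ∈ Icc 1 N, R (T^[n] x)) / (N : ℝ) := by
    rw [← sub_div, abs_div, abs_of_pos hN0']
    refine div_le_div_of_nonneg_right ?_ hN0'.le
    rw [← Finset.sum_sub_distrib]
    exact (Finset.abs_sum_le_sum_abs _ _).trans (Finset.sum_le_sum fun n _ => hFG _)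
  have h5 := (abs_lt.1 hN2).2
  have h6 := abs_lt.1 hN1
  have h7 := abs_le.1 h4
  have h8 := abs_le.1 h3
  rw [abs_lt]
  constructor <;> linarith [h6.1, h6.2, h7.1, h7.2, h8.1, h8.2]

/-- **VAV**. -/
theorem st_VAV : ST_VAV := by
  intro X _ _ _ _ L T x m h
  have := h.prob
  have := h.ne
  refine ⟨⟨h.meas, ?_⟩, fun F hF ⟨B, hB⟩ hc => ⟨avg_tendsto h hF hB hc, ?_⟩⟩
  · have : IsProbabilityMeasure (m.map T) :=
      Measure.isProbabilityMeasure_map h.meas.aemeasurable
    refine ext_of_forall_integral_eq_of_IsFiniteMeasure fun G => ?_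
    rw [integral_map h.meas.aemeasurable G.continuous.aestronglyMeasurable]
    have hcT : ∀ᵐ z ∂m, ContinuousAt (fun z => G (T z)) z := by
      filter_upwards [h.cts] with z hz
      exact ContinuousAt.comp G.continuous.continuousAt hz
    have hB : ∀ z, |G (T z)| ≤ ‖G‖ := fun z => G.norm_coe_le_norm _
    have h1 := avg_tendsto h (G.continuous.measurable.comp h.meas) hB hcT
    have h2 := h.lim G.toContinuousMap
    have h3 : Tendsto (fun N : ℕ => (G (T^[N + 1] x) - G (T^[1] x)) / (N : ℝ)) L (𝓝 0) :=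
      tend_div h.le (B := ‖G‖ + ‖G‖) fun n =>
        (abs_sub _ _).trans (add_le_add (G.norm_coe_le_norm _) (G.norm_coe_le_norm _))
    have h4 := h3.add h2
    rw [zero_add] at h4
    refine tendsto_nhds_unique h1 (h4.congr fun N => ?_)
    rw [← add_div]
    congr 1
    have h5 := sum_icc_shift (fun n => G (T^[n] x)) N
    have h6 : ∀ n, G (T (T^[n] x)) = G (T^[n + 1] x) := fun n => by
      rw [Function.iterate_succ_apply']
    simp only [Function.comp_apply, h6]
    rw [h5]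
    rfl
  · have h1 := avg_tendsto h hF hB hc
    have h3 : Tendsto (fun N : ℕ => (F (T^[0] x) - F (T^[N] x)) / (N : ℝ)) L (𝓝 0) :=
      tend_div h.le (B := B + B) fun n => (abs_sub _ _).trans (add_le_add (hB _) (hB _))
    have h4 := h3.add h1
    rw [zero_add] at h4
    refine h4.congr fun N => ?_
    rw [← add_div]
    congr 1
    exact (sum_icc_range (fun n => F (T^[n] x)) N).symm

end Pool.Agent.Helper34.ZU
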