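import Pool.Agent.Helper34.ZU.VAV
import Pool.Agent.Helper34.ZB.ZOC

/-!
Row VOC of the sheet ZU (MP_7a8f48_an): functions orthogonal to the Moebius function along an
orbit form a closed subspace.
-/

set_option linter.unusedSectionVars false

open MeasureTheory Filter Topology Finset
open scoped ComplexConjugate ENNReal BoundedContinuousFunction

namespace Pool.Agent.Helper34.ZU

open Pool.Agent.Helper40.ZU (Lt Oe Or ST_VOC)
open Pool.Agent.Helper16.MD (MS)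
open Pool.Agent.Helper34.ZB (l2_add l2_tri l2_symm l1_of_l2 ms_norm_le ms_add ms_smul memLp_cont
  dense)

variable {X : Type} [MetricSpace X] [CompactSpace X] [MeasurableSpace X] [BorelSpace X]
  {L : Filter ℕ} {T : X → X} {x : X} {m : Measure X}

/-- averages of the absolute values -/
theorem orb (h : Lt L T x m) (H : C(X, ℂ)) {t : ℝ} (ht : ∫ y, ‖H y‖ ∂m < t) :
    ∀ᶠ N : ℕ in L, ‖MS (fun n => H (T^[n] x)) N‖ ≤ t * N := by
  have h0 := h.lim ⟨fun y => ‖H y‖, H.continuous.norm⟩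
  have h1 : ∀ᶠ N : ℕ in L, (∑ n ∈ Icc 1 N, ‖H (T^[n] x)‖) / (N : ℝ) < t :=
    h0.eventually (eventually_lt_nhds ht)
  filter_upwards [h1, h.le (eventually_gt_atTop 0)] with N hN hN0
  have hN1 : (0 : ℝ) < N := by exact_mod_cast hN0
  rw [div_lt_iff₀ hN1] at hN
  exact (ms_norm_le _ N).trans hN.le

/-- comparison of two continuous functions -/
theorem comp (h : Lt L T x m) (H H' : C(X, ℂ)) {t η₁ η : ℝ} (ht : 0 ≤ t)
    (h2 : ∫ y, ‖H y - H' y‖ ^ 2 ∂m ≤ t ^ 2)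
    (h' : ∀ᶠ N : ℕ in L, ‖MS (fun n => H' (T^[n] x)) N‖ ≤ η₁ * N) (hη : η₁ + t < η) :
    ∀ᶠ N : ℕ in L, ‖MS (fun n => H (T^[n] x)) N‖ ≤ η * N := by
  have := h.prob
  have h3 : ∫ y, ‖(H - H') y‖ ∂m ≤ t := by
    refine l1_of_l2 (memLp_cont (H - H')) ht ?_
    simpa only [ContinuousMap.sub_apply] using h2
  have h4 : ∫ y, ‖(H - H') y‖ ∂m < η - η₁ := by linarith
  filter_upwards [h', orb h (H - H') h4] with N hN1 hN2
  have h5 : MS (fun n => H (T^[n] x)) N =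
      MS (fun n => H' (T^[n] x)) N + MS (fun n => (H - H') (T^[n] x)) N := by
    rw [← ms_add]
    congr 1
    funext n
    simp
  rw [h5]
  refine (norm_add_le _ _).trans ?_
  linarith

theorem or_congr {G G' : X → ℂ} (h : G =ᵐ[m] G') (hG : Or L T x m G) : Or L T x m G' := by
  intro η hη
  obtain ⟨δ, hδ, hH⟩ := hG η hη
  refine ⟨δ, hδ, fun H h1 => hH H ?_⟩
  have h2 : ∫ y, ‖H y - G y‖ ^ 2 ∂m = ∫ y, ‖H y - G' y‖ ^ 2 ∂m := by
    apply integral_congr_ae
    filter_upwards [h] with y hy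
    rw [hy]
  rw [h2]
  exact h1

theorem or_add (hL : Lt L T x m) {G G' : X → ℂ} (mG : MemLp G 2 m) (mG' : MemLp G' 2 m)
    (hG : Or L T x m G) (hG' : Or L T x m G') : Or L T x m (fun y => G y + G' y) := by
  have := hL.prob
  intro η hη
  obtain ⟨δ₁, hδ₁, h1⟩ := hG (η / 2) (by positivity)
  obtain ⟨δ₂, hδ₂, h2⟩ := hG' (η / 2) (by positivity)
  set s : ℝ := min (√δ₁) (√δ₂ / 2) with hs
  have hs0 : 0 < s := lt_min (Real.sqrt_pos.2 hδ₁) (by positivity)
  have hs1 : s ^ 2 ≤ δ₁ := by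
    have h3 : s ^ 2 ≤ (√δ₁) ^ 2 := pow_le_pow_left₀ hs0.le (min_le_left _ _) 2
    rwa [Real.sq_sqrt hδ₁.le] at h3
  have hs2 : (s + s) ^ 2 ≤ δ₂ := by
    have h4 : s ≤ √δ₂ / 2 := min_le_right _ _
    have h3 : (s + s) ^ 2 ≤ (√δ₂) ^ 2 := pow_le_pow_left₀ (by positivity) (by linarith) 2
    rwa [Real.sq_sqrt hδ₂.le] at h3
  refine ⟨s ^ 2, by positivity, fun H hH => ?_⟩
  obtain ⟨H₁, hH₁⟩ := dense mG (show 0 < s ^ 2 by positivity)
  have e1 := h1 H₁ (hH₁.trans hs1)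
  have hH₂ : ∫ y, ‖G y - H₁ y‖ ^ 2 ∂m ≤ s ^ 2 := by
    rw [l2_symm]
    exact hH₁
  have e2 := h2 (H - H₁) (by
    refine le_trans ?_ hs2
    have h3 : ∫ y, ‖(H y - (G y + G' y)) + (G y - H₁ y)‖ ^ 2 ∂m ≤ (s + s) ^ 2 :=
      l2_add ((memLp_cont H).sub (mG.add mG')) (mG.sub (memLp_cont H₁)) hs0 hs0 hH hH₂
    have h4 : ∀ y, (H y - (G y + G' y)) + (G y - H₁ y) = (H - H₁) y - G' y := fun y => by
      simp only [ContinuousMap.sub_apply]; ring
    simpa only [h4] using h3)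
  filter_upwards [e1, e2] with N hN1 hN2
  have h5 : MS (fun n => H (T^[n] x)) N =
      MS (fun n => H₁ (T^[n] x)) N + MS (fun n => (H - H₁) (T^[n] x)) N := by
    rw [← ms_add]
    congr 1
    funext n
    simp
  rw [h5]
  refine (norm_add_le _ _).trans ?_
  linarith

theorem or_smul (hL : Lt L T x m) (c : ℂ) {G : X → ℂ} (hG : Or L T x m G) :
    Or L T x m (fun y => c * G y) := by
  have := hL.prob
  intro η hη
  rcases eq_or_ne c 0 with hc | hc
  · refine ⟨(η / 2) ^ 2, by positivity, fun H hH => ?_⟩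
    have h1 : ∫ y, ‖H y‖ ∂m ≤ η / 2 := by
      refine l1_of_l2 (memLp_cont H) (by positivity) ?_
      simpa only [hc, zero_mul, sub_zero] using hH
    exact orb hL H (by linarith)
  · have hc0 : 0 < ‖c‖ := norm_pos_iff.2 hc
    obtain ⟨δ, hδ, h1⟩ := hG (η / ‖c‖) (by positivity)
    refine ⟨δ * ‖c‖ ^ 2, by positivity, fun H hH => ?_⟩
    have h2 := h1 (c⁻¹ • H) (by
      have h3 : ∀ y, ‖(c⁻¹ • H) y - G y‖ ^ 2 = (‖c‖ ^ 2)⁻¹ * ‖H y - c * G y‖ ^ 2 := by
        intro y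
        have h4 : (c⁻¹ • H) y - G y = c⁻¹ * (H y - c * G y) := by
          rw [ContinuousMap.smul_apply, smul_eq_mul]
          field_simp
        rw [h4, norm_mul, mul_pow, norm_inv, inv_pow]
      simp only [h3]
      rw [integral_const_mul]
      have h5 : (‖c‖ ^ 2)⁻¹ * ∫ y, ‖H y - c * G y‖ ^ 2 ∂m ≤ (‖c‖ ^ 2)⁻¹ * (δ * ‖c‖ ^ 2) :=
        mul_le_mul_of_nonneg_left hH (by positivity)
      refine h5.trans (le_of_eq ?_)
      field_simp)
    filter_upwards [h2] with N hN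
    have h5 : MS (fun n => H (T^[n] x)) N = c * MS (fun n => (c⁻¹ • H) (T^[n] x)) N := by
      rw [← ms_smul]
      congr 1
      funext n
      rw [ContinuousMap.smul_apply, smul_eq_mul]
      field_simp
    rw [h5, norm_mul]
    calc ‖c‖ * ‖MS (fun n => (c⁻¹ • H) (T^[n] x)) N‖ ≤ ‖c‖ * (η / ‖c‖ * N) :=
          mul_le_mul_of_nonneg_left hN hc0.le
      _ = η * N := by field_simp

theorem oe_close (hL : Lt L T x m) {G G' : X → ℂ} {η : ℝ} (hη : 0 < η)
    (mG : MemLp G 2 m) (mG' : MemLp G' 2 m) (h : Oe L T x m G' (η / 2))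
    (hGG : ∫ y, ‖G y - G' y‖ ^ 2 ∂m ≤ (η / 8) ^ 2) : Oe L T x m G η := by
  have := hL.prob
  obtain ⟨δ, hδ, h1⟩ := h
  refine ⟨(η / 8) ^ 2, by positivity, fun H hH => ?_⟩
  obtain ⟨H', hH'⟩ := dense mG' (show 0 < min δ ((η / 16) ^ 2) from
    lt_min hδ (by positivity))
  have e1 := h1 H' (hH'.trans (min_le_left _ _))
  have e2 : ∫ y, ‖H y - G' y‖ ^ 2 ∂m ≤ (η / 8 + η / 8) ^ 2 :=
    l2_tri (memLp_cont H) mG mG' (by positivity) (by positivity) hH hGG
  have e3 : ∫ y, ‖G' y - H' y‖ ^ 2 ∂m ≤ (η / 16) ^ 2 := by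
    rw [l2_symm]
    exact hH'.trans (min_le_right _ _)
  have e4 : ∫ y, ‖H y - H' y‖ ^ 2 ∂m ≤ (η / 8 + η / 8 + η / 16) ^ 2 :=
    l2_tri (memLp_cont H) mG' (memLp_cont H') (by positivity) (by positivity) e2 e3
  exact comp hL H H' (by positivity) e4 e1 (by linarith)

/-- bounded functions which are continuous almost everywhere -/
theorem or_tendsto (hL : Lt L T x m) {F : X → ℂ} (hF : Measurable F) {B : ℝ}
    (hB : ∀ z, ‖F z‖ ≤ B) (hc : ∀ᵐ z ∂m, ContinuousAt F z) (hO : Or L T x m F) :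
    Tendsto (fun N : ℕ => MS (fun n => F (T^[n] x)) N / (N : ℂ)) L (𝓝 0) := by
  have := hL.prob
  rw [Metric.tendsto_nhds]
  intro ε hε
  obtain ⟨δ, hδ, h1⟩ := hO (ε / 4) (by positivity)
  have mF : MemLp F 2 m := MemLp.of_bound hF.aestronglyMeasurable B (Eventually.of_forall hB)
  obtain ⟨H, hH⟩ := dense mF (show 0 < min δ ((ε / 8) ^ 2) from lt_min hδ (by positivity))
  have e1 := h1 H (hH.trans (min_le_left _ _))
  have e2 : ∫ y, ‖F y - H y‖ ∂m ≤ ε / 8 := by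
    refine l1_of_l2 (mF.sub (memLp_cont H)) (by positivity) ?_
    have h2 : ∫ y, ‖F y - H y‖ ^ 2 ∂m ≤ (ε / 8) ^ 2 := by
      rw [l2_symm]
      exact hH.trans (min_le_right _ _)
    exact h2
  have e3 := avg_tendsto hL (F := fun z => ‖F z - H z‖)
    (hF.sub H.continuous.measurable).norm (B := B + ‖H‖) (fun z => by
      rw [abs_norm]
      exact (norm_sub_le _ _).trans (add_le_add (hB z) (H.norm_coe_le_norm z))) (by
      filter_upwards [hc] with z hz
      exact (hz.sub H.continuous.continuousAt).norm)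
  have e4 : ∀ᶠ N : ℕ in L, (∑ n ∈ Icc 1 N, ‖F (T^[n] x) - H (T^[n] x)‖) / (N : ℝ) < ε / 4 :=
    e3.eventually (eventually_lt_nhds (by linarith))
  filter_upwards [e1, e4, hL.le (eventually_gt_atTop 0)] with N hN1 hN2 hN0
  have hN1' : (0 : ℝ) < N := by exact_mod_cast hN0
  rw [div_lt_iff₀ hN1'] at hN2
  rw [dist_zero_right, norm_div, Complex.norm_natCast, div_lt_iff₀ hN1']
  have h5 : MS (fun n => F (T^[n] x)) N =
      MS (fun n => H (T^[n] x)) N + MS (fun n => F (T^[n] x) - H (T^[n] x)) N := by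
    rw [← ms_add]
    congr 1
    funext n
    ring
  rw [h5]
  have h6 := ms_norm_le (fun n => F (T^[n] x) - H (T^[n] x)) N
  have h7 : ε / 4 * N + ε / 4 * N < ε * N := by nlinarith
  exact (norm_add_le _ _).trans_lt (by linarith)

/-- **VOC**. -/
theorem st_VOC : ST_VOC := by
  intro X _ _ _ _ L T x m hL
  have := hL.prob
  refine ⟨fun G G' h hG => or_congr h hG, fun G G' mG mG' hG hG' => or_add hL mG mG' hG hG',
    fun c G _ hG => or_smul hL c hG, fun G mG h η hη => ?_,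
    fun G G' η hη mG mG' h hGG => oe_close hL hη mG mG' h hGG,
    fun F hF ⟨B, hB⟩ hc hO => or_tendsto hL hF hB hc hO⟩
  obtain ⟨G', mG', hG', hGG⟩ := h ((η / 8) ^ 2) (by positivity)
  exact oe_close hL hη mG mG' (hG' (η / 2) (by positivity)) hGG

end Pool.Agent.Helper34.ZU
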